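import Pool.Agent.E8helper58.CM.Stm
import Pool.Agent.E8helper58.FV.Defect
import Pool.Agent.W907.SG.All

/-!
# Project CM (helper58), piece IRR (helper50): flag 2-spheres in which every edge is in an induced
4-cycle
-/

set_option autoImplicit false
set_option linter.unusedSectionVars false

namespace Pool.Agent.E8helper50.CM

open Pool.Agent.W907.SG Pool.Agent.W907.SM
open Pool.Agent.TH652.Dual (triv Sph no_big)
open Pool.Agent.E8helper58.CM
open Pool.Agent.E8helper58.FV (sconn size no_three top_exists mem_W)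
open Pool.Agent.W497.FS (SConn lkF)

/-- restriction to the induced subgraph -/
theorem sph_of_sphA {V : Type} [Fintype V] [LinearOrder V] {n : ℕ} {G : SimpleGraph V} {A : Set V}
    [Fintype ↥A] (hS : SphA n G A) : Sph n (G.induce A) := by
  classical
  intro S' hS' i
  obtain ⟨S, hSd⟩ : ∃ S : Finset V, S = S'.map (Function.Embedding.subtype _) := ⟨_, rfl⟩
  have hcard : S.card = S'.card := by rw [hSd, Finset.card_map]
  have hSc : G.IsClique (S : Set V) := by
    intro a ha b hb hab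
    rw [Finset.mem_coe, hSd, Finset.mem_map] at ha hb
    obtain ⟨a', ha', rfl⟩ := ha
    obtain ⟨b', hb', rfl⟩ := hb
    exact hS' ha' hb' fun h => hab (congrArg Subtype.val h)
  have hSA : (S : Set V) ⊆ A := by
    intro a ha
    rw [Finset.mem_coe, hSd, Finset.mem_map] at ha
    obtain ⟨a', -, rfl⟩ := ha
    exact a'.2
  have hfin : Fintype ↥(lk (G.induce A) S') := Fintype.ofFinite _
  have e1 := tr ↥(lk (G.induce A) S') ↥A ℝ ℝ (G.induce A)
    ((G.induce A).induce (lk (G.induce A) S')) (fun _ => - LinearMap.id) Subtype.val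
    (fun _ _ h => h) (fun _ _ => Iff.rfl) i
  have e2 := tr ↥(lk (G.induce A) S') V ℝ ℝ G
    ((G.induce A).induce (lk (G.induce A) S')) (fun _ => - LinearMap.id)
    (fun x => x.1.1) (fun _ _ h => h) (fun _ _ => Iff.rfl) i
  rw [Subtype.range_coe] at e1
  have hr : Set.range (fun x : ↥(lk (G.induce A) S') => (x.1.1 : V)) = A ∩ lk G S := by
    ext v
    constructor
    · rintro ⟨x, rfl⟩
      refine ⟨x.1.2, fun u hu => ?_⟩
      rw [hSd, Finset.mem_map] at hu
      obtain ⟨u', hu', rfl⟩ := hu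
      exact x.2 u' hu'
    · rintro ⟨hvA, hv⟩
      refine ⟨⟨⟨v, hvA⟩, fun u hu => hv u.1 ?_⟩, rfl⟩
      rw [hSd, Finset.mem_map]
      exact ⟨u, hu, rfl⟩
  rw [hr] at e2
  have e3 := hS S hSc hSA i
  have e4 : beta (G.induce A) (triv ↥A) (lk (G.induce A) S') ∅ i = beta G (triv V) (A ∩ lk G S) ∅ i := by
    exact e1.trans e2.symm
  rw [e4, e3, hcard]

variable {V : Type} [Fintype V] [LinearOrder V] {G : SimpleGraph V}

/-- three common neighbours of two adjacent vertices -/
theorem no3 (hS : Sph 3 G) {x y a b c : V} (hxy : G.Adj x y) (hax : G.Adj a x) (hay : G.Adj a y)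
    (hbx : G.Adj b x) (hby : G.Adj b y) (hcx : G.Adj c x) (hcy : G.Adj c y) (hab : a ≠ b)
    (hac : a ≠ c) (hbc : b ≠ c) : False := by
  have hcl : G.IsClique (({x, y} : Finset V) : Set V) := by
    intro u hu v hv huv
    rw [Finset.mem_coe, Finset.mem_insert, Finset.mem_singleton] at hu hv
    rcases hu with rfl | rfl <;> rcases hv with rfl | rfl
    · exact absurd rfl huv
    · exact hxy
    · exact hxy.symm
    · exact absurd rfl huv
  have hm : ∀ z, G.Adj z x → G.Adj z y → z ∈ lk G {x, y} := by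
    intro z hzx hzy u hu
    rw [Finset.mem_insert, Finset.mem_singleton] at hu
    rcases hu with rfl | rfl
    · exact hzx
    · exact hzy
  refine no_three hS hcl ?_ (hm a hax hay) (hm b hbx hby) (hm c hcx hcy) hab hac hbc
  rw [Finset.card_pair hxy.ne]

/-- the neighbours of `w` form the 4-cycle `p q r s` -/
def Link4 (G : SimpleGraph V) (w p q r s : V) : Prop :=
  G.Adj p q ∧ G.Adj q r ∧ G.Adj r s ∧ G.Adj s p ∧ p ≠ r ∧ q ≠ s ∧
    G.Adj w p ∧ G.Adj w q ∧ G.Adj w r ∧ G.Adj w s ∧ ∀ z, G.Adj w z → z = p ∨ z = q ∨ z = r ∨ z = s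

theorem Link4.rot {w p q r s : V} (h : Link4 G w p q r s) : Link4 G w q r s p := by
  obtain ⟨h1, h2, h3, h4, h5, h6, h7, h8, h9, h10, h11⟩ := h
  refine ⟨h2, h3, h4, h1, h6, h5.symm, h8, h9, h10, h7, fun z hz => ?_⟩
  rcases h11 z hz with h | h | h | h
  · exact Or.inr (Or.inr (Or.inr h))
  · exact Or.inl h
  · exact Or.inr (Or.inl h)
  · exact Or.inr (Or.inr (Or.inl h))

theorem Link4.refl {w p q r s : V} (h : Link4 G w p q r s) : Link4 G w p s r q := by
  obtain ⟨h1, h2, h3, h4, h5, h6, h7, h8, h9, h10, h11⟩ := h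
  refine ⟨h4.symm, h3.symm, h2.symm, h1.symm, h5, h6.symm, h7, h10, h9, h8, fun z hz => ?_⟩
  rcases h11 z hz with h | h | h | h
  · exact Or.inl h
  · exact Or.inr (Or.inr (Or.inr h))
  · exact Or.inr (Or.inr (Or.inl h))
  · exact Or.inr (Or.inl h)

theorem Link4.first {w p q r s : V} (h : Link4 G w p q r s) {x : V} (hx : G.Adj w x) :
    ∃ q' r' s', Link4 G w x q' r' s' := by
  rcases h.2.2.2.2.2.2.2.2.2.2 x hx with e | e | e | e
  · subst e; exact ⟨_, _, _, h⟩
  · subst e; exact ⟨_, _, _, h.rot⟩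
  · subst e; exact ⟨_, _, _, h.rot.rot⟩
  · subst e; exact ⟨_, _, _, h.rot.rot.rot⟩

/-- a 4-cycle in the link of a vertex is the whole link -/
theorem circle (hS : Sph 3 G) {x p q r s : V} (h1 : G.Adj p q) (h2 : G.Adj q r) (h3 : G.Adj r s)
    (h4 : G.Adj s p) (h5 : p ≠ r) (h6 : q ≠ s) (h7 : G.Adj x p) (h8 : G.Adj x q) (h9 : G.Adj x r)
    (h10 : G.Adj x s) : Link4 G x p q r s := by
  classical
  refine ⟨h1, h2, h3, h4, h5, h6, h7, h8, h9, h10, fun z hz => ?_⟩
  by_contra hno
  push Not at hno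
  have hcl : G.IsClique (({x} : Finset V) : Set V) := by
    rw [Finset.coe_singleton]
    exact Set.pairwise_singleton _ _
  have hc := sconn hS (S := {x}) hcl (d := 0) (by rw [Finset.card_singleton])
  have hm : ∀ y, y ∈ lkF G Finset.univ {x} ↔ G.Adj x y := by
    intro y
    rw [mem_W]
    constructor
    · intro h
      exact (h x (Finset.mem_singleton_self x)).symm
    · intro h u hu
      rw [Finset.mem_singleton] at hu
      subst hu
      exact h.symm
  obtain ⟨a, ha, b, hb, hbn, hab⟩ := hc ({p, q, r, s} : Finset V) (by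
      intro y hy
      rw [hm]
      simp only [Finset.mem_insert, Finset.mem_singleton] at hy
      rcases hy with rfl | rfl | rfl | rfl <;> assumption) ⟨p, by simp⟩ (by
      intro h
      have : z ∈ ({p, q, r, s} : Finset V) := by
        rw [h, hm]
        exact hz
      simp only [Finset.mem_insert, Finset.mem_singleton] at this
      rcases this with h | h | h | h
      · exact hno.1 h
      · exact hno.2.1 h
      · exact hno.2.2.1 h
      · exact hno.2.2.2 h)
  rw [hm] at hb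
  simp only [Finset.mem_insert, Finset.mem_singleton, not_or] at ha hbn
  obtain ⟨n1, n2, n3, n4⟩ := hbn
  rcases ha with rfl | rfl | rfl | rfl
  · exact no3 hS h7 h8.symm h1.symm h10.symm h4 hb.symm hab.symm h6 (Ne.symm n2) (Ne.symm n4)
  · exact no3 hS h8 h7.symm h1 h9.symm h2.symm hb.symm hab.symm h5 (Ne.symm n1) (Ne.symm n3)
  · exact no3 hS h9 h8.symm h2 h10.symm h3.symm hb.symm hab.symm h6 (Ne.symm n2) (Ne.symm n4)
  · exact no3 hS h10 h7.symm h4.symm h9.symm h3 hb.symm hab.symm h5 (Ne.symm n1) (Ne.symm n3)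

/-- the graph is connected -/
theorem conn_univ (hS : Sph 3 G) {A : Finset V} (hA : A.Nonempty)
    (h : ∀ a ∈ A, ∀ b, G.Adj a b → b ∈ A) : A = Finset.univ := by
  classical
  by_contra hne
  have hcl : G.IsClique ((∅ : Finset V) : Set V) := by
    rw [Finset.coe_empty]
    exact Set.pairwise_empty _
  have hc := sconn hS (S := ∅) hcl (d := 1) (by rw [Finset.card_empty])
  have hm : lkF G Finset.univ (∅ : Finset V) = Finset.univ := by
    ext y
    rw [mem_W]
    simp [lk]
  rw [hm] at hc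
  obtain ⟨a, ha, b, -, hbn, hab⟩ := hc A (Finset.subset_univ A) hA hne
  exact hbn (h a ha b hab)

/-- the join conclusion -/
def Join (G : SimpleGraph V) : Prop :=
  ∃ X Y : Set V, X.Nonempty ∧ Y.Nonempty ∧ X ∪ Y = Set.univ ∧ ∀ x ∈ X, ∀ y ∈ Y, G.Adj x y

/-- two adjacent vertices with four neighbours each -/
theorem stepD (hS : Sph 3 G) {w w' p q r s p' q' r' s' : V} (hw : G.Adj w w')
    (h : Link4 G w p q r s) (h' : Link4 G w' p' q' r' s')
    (hsq : ¬ NoSqA G Set.univ w w') : Join G := by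
  classical
  obtain ⟨u1, m, u2, hl⟩ := h.first hw
  obtain ⟨v1, m', v2, hl'⟩ := h'.first hw.symm
  have hnm : ¬ G.Adj w' m := by
    intro hm
    obtain ⟨a1, a2, a3, a4, a5, a6, a7, a8, a9, a10, a11⟩ := hl
    exact no3 hS hw a8.symm a1.symm a10.symm a4 a9.symm hm.symm a6 a2.ne a3.ne.symm
  -- the common neighbours
  have hv : ∀ v, G.Adj w v → G.Adj w' v → v = u1 ∨ v = u2 := by
    intro v h1 h2
    rcases hl.2.2.2.2.2.2.2.2.2.2 v h1 with e | e | e | e
    · subst e; exact absurd h2 (G.irrefl)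
    · exact Or.inl e
    · subst e; exact absurd h2 hnm
    · exact Or.inr e
  have hl2 : Link4 G w' w u1 m' u2 := by
    have b := hl'
    obtain ⟨b1, b2, b3, b4, b5, b6, b7, b8, b9, b10, b11⟩ := b
    rcases hv v1 b1 b8 with e1 | e1 <;> rcases hv v2 b4.symm b10 with e2 | e2
    · exact absurd (e1.trans e2.symm) b6
    · subst e1; subst e2; exact hl'
    · subst e1; subst e2; exact hl'.refl
    · exact absurd (e1.trans e2.symm) b6
  clear hl'
  obtain ⟨a1, a2, a3, a4, a5, a6, a7, a8, a9, a10, a11⟩ := hl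
  obtain ⟨b1, b2, b3, b4, b5, b6, b7, b8, b9, b10, b11⟩ := hl2
  -- a1 : w' ~ u1, a2 : u1 ~ m, a3 : m ~ u2, a4 : u2 ~ w', a5 : w' ≠ m, a6 : u1 ≠ u2
  -- b1 : w ~ u1, b2 : u1 ~ m', b3 : m' ~ u2, b4 : u2 ~ w, b5 : w ≠ m', b6 : u1 ≠ u2
  have hmm : G.Adj m m' := by
    unfold NoSqA at hsq
    push Not at hsq
    obtain ⟨x, -, y, -, h1, h2, h3, h4, h5, h6, h7⟩ := hsq
    have ex : x = m := by
      rcases a11 x h1 with e | e | e | e
      · exact absurd e h3
      · subst e; exact absurd a1 h2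
      · exact e
      · subst e; exact absurd a4.symm h2
    have ey : y = m' := by
      rcases b11 y h4 with e | e | e | e
      · exact absurd e h6
      · subst e; exact absurd b1 h5
      · exact e
      · subst e; exact absurd b4.symm h5
    rw [ex, ey] at h7
    exact h7
  have c1 : Link4 G u1 w w' m' m := circle hS hw b9 hmm.symm a9.symm b5 a5 b1.symm a1.symm b2 a2
  have c2 : Link4 G u2 w w' m' m := circle hS hw b9 hmm.symm a9.symm b5 a5 b4 a4 b3.symm a3.symm
  have c3 : Link4 G m w u1 m' u2 := circle hS b1 b2 b3 b4 b5 b6 a9.symm a2.symm hmm a3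
  have c4 : Link4 G m' w' u1 m u2 := circle hS a1 a2 a3 a4 a5 a6 b9.symm b2.symm hmm.symm b3
  have hall := conn_univ hS (A := {w, w', m, m', u1, u2}) ⟨w, by simp⟩ (by
    intro a ha b hab
    simp only [Finset.mem_insert, Finset.mem_singleton] at ha ⊢
    rcases ha with rfl | rfl | rfl | rfl | rfl | rfl
    · rcases a11 b hab with e | e | e | e <;> simp [e]
    · rcases b11 b hab with e | e | e | e <;> simp [e]
    · rcases c3.2.2.2.2.2.2.2.2.2.2 b hab with e | e | e | e <;> simp [e]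
    · rcases c4.2.2.2.2.2.2.2.2.2.2 b hab with e | e | e | e <;> simp [e]
    · rcases c1.2.2.2.2.2.2.2.2.2.2 b hab with e | e | e | e <;> simp [e]
    · rcases c2.2.2.2.2.2.2.2.2.2.2 b hab with e | e | e | e <;> simp [e])
  refine ⟨{u1, u2}, {w, w', m, m'}, ⟨u1, by simp⟩, ⟨w, by simp⟩, ?_, ?_⟩
  · ext z
    have hz : z ∈ ({w, w', m, m', u1, u2} : Finset V) := by rw [hall]; exact Finset.mem_univ z
    simp only [Finset.mem_insert, Finset.mem_singleton] at hz
    simp only [Set.mem_union, Set.mem_insert_iff, Set.mem_singleton_iff, Set.mem_univ, iff_true]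
    tauto
  · intro x hx y hy
    simp only [Set.mem_insert_iff, Set.mem_singleton_iff] at hx hy
    rcases hx with rfl | rfl <;> rcases hy with rfl | rfl | rfl | rfl
    · exact b1.symm
    · exact a1.symm
    · exact a2
    · exact b2
    · exact b4
    · exact a4
    · exact a3.symm
    · exact b3.symm

theorem Sides.symm' {A : Set V} {a b c d : V} {X Y : Set V} (h : Sides G A a b c d X Y) :
    Sides G A a b c d Y X := by
  obtain ⟨h1, h2, h3, h4, h5, h6⟩ := h
  exact ⟨by rw [Set.union_comm]; exact h1, h2.symm, h4, h3, fun x hx y hy h => h5 y hy x hx h.symm,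
    fun u hu => ⟨(h6 u hu).2, (h6 u hu).1⟩⟩

/-- a connected set without edges to the complement of `P` in `P ∪ Q` -/
theorem conn_sub {Y P Q : Set V} (hY : Conn G Y) (hsub : Y ⊆ P ∪ Q)
    (hno : ∀ x ∈ P, ∀ y ∈ Q, ¬ G.Adj x y) : Y ⊆ P ∨ Y ⊆ Q := by
  by_contra hcon
  push Not at hcon
  obtain ⟨h1, h2⟩ := hcon
  obtain ⟨y1, hy1, hy1P⟩ := Set.not_subset.1 h1
  obtain ⟨y2, hy2, hy2Q⟩ := Set.not_subset.1 h2
  have hy2P : y2 ∈ P := (hsub hy2).resolve_right hy2Q
  obtain ⟨a, ha, b, hb, hbn, hab⟩ := hY.2 (Y ∩ P) Set.inter_subset_left ⟨y2, hy2, hy2P⟩ (by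
    intro h
    rw [← h] at hy1
    exact hy1P hy1.2)
  exact hno a ha.2 b ((hsub hb).resolve_left fun h => hbn ⟨hb, h⟩) hab

/-- the shrinking step -/
theorem shrink (hJ : S_JORDAN) (hS : Sph 3 G) (hH : ∀ s t, G.Adj s t → ¬ NoSqA G Set.univ s t)
    {a b c d : V} {X Y : Set V} (hXY : Sides G Set.univ a b c d X Y)
    (hmin : ∀ a' b' c' d' : V, ∀ X' Y' : Set V, Sides G Set.univ a' b' c' d' X' Y' →
      2 ≤ X'.ncard → X.ncard ≤ X'.ncard)
    {y z : V} (hy : y ∈ X) (hz : z ∈ X) (hyz : G.Adj y z) :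
    ∃ w ∈ X, ∃ q p, Link4 G w y z q p := by
  classical
  have hA : SphA 3 G Set.univ := by
    intro S hcl _ i
    rw [Set.univ_inter]
    exact hS S hcl i
  have h1 := hH y z hyz
  unfold NoSqA at h1
  push Not at h1
  obtain ⟨p, -, q, -, hyp, hzp, hpz, hzq, hyq, hqy, hpq⟩ := h1
  have hSq : Sq G Set.univ y z q p :=
    ⟨trivial, trivial, trivial, trivial, hyz, hzq, hpq.symm, hyp.symm, hqy.symm, hpz.symm, hyq, hzp⟩
  obtain ⟨hU, hdis, hcX, hcY, hno, hnb⟩ := hXY
  have hpY : p ∉ Y := fun h => hno y hy p h hyp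
  have hqY : q ∉ Y := fun h => hno z hz q h hzq
  have hyY : y ∉ Y := fun h => Set.disjoint_left.1 hdis hy h
  have hzY : z ∉ Y := fun h => Set.disjoint_left.1 hdis hz h
  have key : ∀ X₁ Y₁ : Set V, Sides G Set.univ y z q p X₁ Y₁ → Y ⊆ Y₁ →
      ∃ w ∈ X, ∃ q p, Link4 G w y z q p := by
    intro X₁ Y₁ hs hYY
    have hs' := hs
    obtain ⟨gU, gdis, gcX, gcY, gno, gnb⟩ := hs
    have hsub : X₁ ⊆ X \ {y} := by
      intro x hx
      have hxU : x ∈ Set.univ \ ({y, z, q, p} : Set V) := by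
        rw [← gU]
        exact Or.inl hx
      have hxY : x ∉ Y := fun h => Set.disjoint_left.1 gdis hx (hYY h)
      have hxC : x ∉ ({a, b, c, d} : Set V) := by
        intro hxC
        obtain ⟨-, v, hv, hxv⟩ := hnb x hxC
        exact gno x hx v (hYY hv) hxv
      have hxX : x ∈ X ∪ Y := by
        rw [hU]
        exact ⟨trivial, hxC⟩
      refine ⟨hxX.resolve_right hxY, ?_⟩
      intro h
      rw [Set.mem_singleton_iff] at h
      exact hxU.2 (by rw [h]; simp)
    have hlt : X₁.ncard < X.ncard := by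
      have h2 := Set.ncard_le_ncard hsub (Set.toFinite _)
      have h3 := Set.ncard_diff_singleton_lt_of_mem hy (Set.toFinite _)
      omega
    have h4 : X₁.ncard < 2 := by
      by_contra h5
      have := hmin y z q p X₁ Y₁ hs' (by omega)
      omega
    obtain ⟨w, hw⟩ := gcX.1
    have hX1 : ∀ x ∈ X₁, x = w := by
      intro x hx
      have h5 : X₁.ncard ≤ 1 := by omega
      rw [Set.ncard_le_one (Set.toFinite _)] at h5
      exact h5 x hx w hw
    have hadj : ∀ u ∈ ({y, z, q, p} : Set V), G.Adj w u := by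
      intro u hu
      obtain ⟨⟨x, hx, hux⟩, -⟩ := gnb u hu
      rw [hX1 x hx] at hux
      exact hux.symm
    refine ⟨w, (hsub hw).1, q, p, hyz, hzq, hpq.symm, hyp.symm, hqy.symm, hpz.symm,
      hadj y (by simp), hadj z (by simp), hadj q (by simp), hadj p (by simp), fun v hv => ?_⟩
    by_contra hvn
    have hv1 : v ∈ X₁ ∪ Y₁ := by
      rw [gU]
      refine ⟨trivial, fun h => hvn ?_⟩
      simpa using h
    rcases hv1 with h | h
    · rw [hX1 v h] at hv
      exact G.irrefl hv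
    · exact gno w hw v h hv
  obtain ⟨X₁, Y₁, hs⟩ := hJ V G Set.univ hA y z q p hSq
  have hYsub : Y ⊆ X₁ ∪ Y₁ := by
    intro x hx
    rw [hs.1]
    refine ⟨trivial, ?_⟩
    rintro (rfl | rfl | rfl | h)
    · exact hyY hx
    · exact hzY hx
    · exact hqY hx
    · rw [Set.mem_singleton_iff] at h
      subst h
      exact hpY hx
  rcases conn_sub hcY hYsub hs.2.2.2.2.1 with h | h
  · exact key Y₁ X₁ (Sides.symm' hs) h
  · exact key X₁ Y₁ hs h

theorem irr_univ (hJ : S_JORDAN) (hS : Sph 3 G) (hH : ∀ s t, G.Adj s t → ¬ NoSqA G Set.univ s t) :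
    Join G := by
  classical
  have hA : SphA 3 G Set.univ := by
    intro S hcl _ i
    rw [Set.univ_inter]
    exact hS S hcl i
  by_cases hbig : ∃ k : ℕ, ∃ a b c d : V, ∃ X Y : Set V, Sides G Set.univ a b c d X Y ∧
      2 ≤ X.ncard ∧ X.ncard = k
  · obtain ⟨a, b, c, d, X, Y, hXY, h2, hk⟩ := Nat.find_spec hbig
    have hmin : ∀ a' b' c' d' : V, ∀ X' Y' : Set V, Sides G Set.univ a' b' c' d' X' Y' →
        2 ≤ X'.ncard → X.ncard ≤ X'.ncard := by
      intro a' b' c' d' X' Y' h h'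
      rw [hk]
      exact Nat.find_min' hbig ⟨a', b', c', d', X', Y', h, h', rfl⟩
    obtain ⟨y, hy⟩ := hXY.2.2.1.1
    obtain ⟨y', hy', z, hz, -, hyz⟩ := hXY.2.2.1.2 {y} (by
      intro x hx
      rw [Set.mem_singleton_iff] at hx
      rw [hx]
      exact hy) ⟨y, rfl⟩ (by
      intro h
      rw [← h, Set.ncard_singleton] at h2
      omega)
    rw [Set.mem_singleton_iff] at hy'
    subst hy'
    obtain ⟨w, hw, q, p, hl⟩ := shrink hJ hS hH hXY hmin hy hz hyz
    have hyw : G.Adj y' w := hl.2.2.2.2.2.2.1.symm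
    obtain ⟨w', hw', q', p', hl'⟩ := shrink hJ hS hH hXY hmin hy hw hyw
    have hww : G.Adj w w' := hl'.2.2.2.2.2.2.2.1.symm
    exact stepD hS hww hl hl' (hH w w' hww)
  · have hcl : G.IsClique ((∅ : Finset V) : Set V) := by
      rw [Finset.coe_empty]
      exact Set.pairwise_empty _
    obtain ⟨z, -, -, T, -, hTc, -, hT3⟩ := top_exists hS hcl (d := 3) (by rw [Finset.card_empty])
    obtain ⟨s, hs, t, ht, hst⟩ := Finset.one_lt_card.1 (show 1 < T.card by omega)
    have hadj : G.Adj s t := hTc hs ht hst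
    have h1 := hH s t hadj
    unfold NoSqA at h1
    push Not at h1
    obtain ⟨p, -, q, -, hyp, hzp, hpz, hzq, hyq, hqy, hpq⟩ := h1
    have hSq : Sq G Set.univ s t q p :=
      ⟨trivial, trivial, trivial, trivial, hadj, hzq, hpq.symm, hyp.symm, hqy.symm, hpz.symm, hyq, hzp⟩
    obtain ⟨X, Y, hXY⟩ := hJ V G Set.univ hA s t q p hSq
    have one : ∀ X Y : Set V, Sides G Set.univ s t q p X Y → ∃ x, X = {x} ∧
        ∀ u ∈ ({s, t, q, p} : Set V), G.Adj x u := by
      intro X Y h
      have h2 : X.ncard < 2 := by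
        by_contra h3
        exact hbig ⟨_, s, t, q, p, X, Y, h, by omega, rfl⟩
      obtain ⟨x, hx⟩ := h.2.2.1.1
      have hX : ∀ v ∈ X, v = x := by
        intro v hv
        have h5 : X.ncard ≤ 1 := by omega
        rw [Set.ncard_le_one (Set.toFinite _)] at h5
        exact h5 v hv x hx
      refine ⟨x, Set.eq_singleton_iff_unique_mem.2 ⟨hx, hX⟩, fun u hu => ?_⟩
      obtain ⟨⟨v, hv, huv⟩, -⟩ := h.2.2.2.2.2 u hu
      rw [hX v hv] at huv
      exact huv.symm
    obtain ⟨x, hx, hx'⟩ := one X Y hXY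
    obtain ⟨y, hy, hy'⟩ := one Y X (Sides.symm' hXY)
    refine ⟨{x, y}, {s, t, q, p}, ⟨x, by simp⟩, ⟨s, by simp⟩, ?_, ?_⟩
    · have h3 := hXY.1
      rw [hx, hy] at h3
      ext v
      simp only [Set.mem_univ, iff_true]
      by_cases hv : v ∈ ({s, t, q, p} : Set V)
      · exact Or.inr hv
      · have h4 : v ∈ ({x} ∪ {y} : Set V) := by
          rw [h3]
          exact ⟨trivial, hv⟩
        left
        rcases h4 with h4 | h4
        · exact Or.inl h4
        · exact Or.inr h4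
    · intro u hu v hv
      rcases hu with rfl | hu
      · exact hx' v hv
      · rw [Set.mem_singleton_iff] at hu
        subst hu
        exact hy' v hv

/-- CM-IRR -/
theorem t_IRR (h : S_JORDAN) : S_IRR := by
  classical
  intro V _ _ G A hA
  have hfin : Fintype ↥A := Fintype.ofFinite _
  have hS := sph_of_sphA hA
  by_contra hcon
  push Not at hcon
  obtain ⟨h1, h2⟩ := hcon
  obtain ⟨X, Y, hX, hY, hXY, hadj⟩ := irr_univ h hS (fun s t hst hns => h1 s.1 s.2 t.1 t.2 hst
    (fun x hx y hy a1 a2 a3 a4 a5 a6 a7 => hns ⟨x, hx⟩ trivial ⟨y, hy⟩ trivial a1 a2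
      (fun e => a3 (congrArg Subtype.val e)) a4 a5 (fun e => a6 (congrArg Subtype.val e)) a7))
  obtain ⟨x, hx, y, hy, hxy⟩ := h2 (Subtype.val '' X) (Subtype.val '' Y) (hX.image _) (hY.image _) (by
    rw [← Set.image_union, hXY, Set.image_univ, Subtype.range_coe])
  obtain ⟨x', hx', rfl⟩ := hx
  obtain ⟨y', hy', rfl⟩ := hy
  exact hxy (hadj x' hx' y' hy')

end Pool.Agent.E8helper50.CM
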